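import Mathlib
import Pool.Agent.R798.AdomB

/-!
# MP_a3f2aa_co: partitions into indivisible dominating sets of every intermediate order
-/

namespace Pool.Agent.Results.MP_a3f2aa_co.IndivisibleInterpolation

open Finset

variable {V : Type*} [Fintype V] [DecidableEq V]

/-- `D` is a dominating set of `G`. -/
def IsDominating (G : SimpleGraph V) (D : Finset V) : Prop :=
  ∀ v, v ∉ D → ∃ u ∈ D, G.Adj v u

/-- `D` is an indivisible dominating set of `G`. -/
def Indivisible (G : SimpleGraph V) (D : Finset V) : Prop :=
  IsDominating G D ∧ ¬ ∃ A B : Finset V, A.Nonempty ∧ B.Nonempty ∧ Disjoint A B ∧ A ∪ B = D ∧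
    IsDominating G A ∧ IsDominating G B

/-- The orders of partitions of `V(G)` into dominating sets. -/
def domaticOrders (G : SimpleGraph V) : Set ℕ :=
  {m | ∃ P : Finpartition (univ : Finset V), P.parts.card = m ∧ ∀ D ∈ P.parts, IsDominating G D}

/-- The orders of partitions of `V(G)` into indivisible dominating sets. -/
def indivisibleOrders (G : SimpleGraph V) : Set ℕ :=
  {m | ∃ P : Finpartition (univ : Finset V), P.parts.card = m ∧ ∀ D ∈ P.parts, Indivisible G D}

/-- The domatic number `d(G)`. -/
noncomputable def domatic (G : SimpleGraph V) : ℕ := sSup (domaticOrders G)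

/-- The adomatic number `ad(G)`. -/
noncomputable def adomatic (G : SimpleGraph V) : ℕ := sInf (indivisibleOrders G)

lemma up (G : SimpleGraph V) : Pool.Agent.R798.Adom.Up (IsDominating G) := by
  intro S T hST hS v hv
  obtain ⟨u, hu, h⟩ := hS v (fun h => hv (hST h))
  exact ⟨u, hST hu, h⟩

lemma not_empty [Nonempty V] (G : SimpleGraph V) : ¬ IsDominating G (∅ : Finset V) := by
  intro h
  obtain ⟨v⟩ := (inferInstance : Nonempty V)
  obtain ⟨u, hu, _⟩ := h v (notMem_empty v)
  exact notMem_empty u hu

lemma indivisible_iff [Nonempty V] (G : SimpleGraph V) (T : Finset V) :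
    Indivisible G T ↔ Pool.Agent.R798.Adom.Ind (IsDominating G) T := by
  constructor
  · rintro ⟨h1, h2⟩
    refine ⟨h1, ?_⟩
    rintro ⟨A, hA, hDA, B, hB, hDB, _⟩
    apply h2
    have hDB' : IsDominating G (T \ A) := up G _ _ hB hDB
    refine ⟨A, T \ A, ?_, ?_, disjoint_sdiff, ?_, hDA, hDB'⟩
    · rw [nonempty_iff_ne_empty]; rintro rfl; exact not_empty G hDA
    · rw [nonempty_iff_ne_empty]; intro h; rw [h] at hDB'; exact not_empty G hDB'
    · rw [union_sdiff_of_subset hA]
  · rintro ⟨h1, h2⟩
    refine ⟨h1, ?_⟩
    rintro ⟨A, B, _, _, hd, hun, hDA, hDB⟩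
    apply h2
    refine ⟨A, ?_, hDA, B, ?_, hDB, trivial⟩
    · rw [← hun]; exact subset_union_left
    · intro x hx
      rw [mem_sdiff, ← hun]
      exact ⟨mem_union_right _ hx, fun hxA => (disjoint_left.1 hd) hxA hx⟩

/-- For every graph `G` on a nonempty finite vertex set: both numbers are attained, and for every
`k` with `ad(G) ≤ k ≤ d(G)` the vertex set has a partition into exactly `k` indivisible dominating
sets. -/
theorem result {V : Type*} [Fintype V] [DecidableEq V] [Nonempty V] (G : SimpleGraph V) :
    IsLeast (indivisibleOrders G) (adomatic G) ∧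
    IsGreatest (domaticOrders G) (domatic G) ∧
    ∀ k : ℕ, adomatic G ≤ k → k ≤ domatic G →
      ∃ P : Finpartition (univ : Finset V), P.parts.card = k ∧
        ∀ D ∈ P.parts, Indivisible G D := by
  have hbdd : BddAbove (domaticOrders G) := by
    refine ⟨Fintype.card V, ?_⟩
    rintro m ⟨P, rfl, _⟩
    exact P.card_parts_le_card
  have huniv : IsDominating G (univ : Finset V) := fun v hv => absurd (mem_univ v) hv
  have hne : (domaticOrders G).Nonempty := by
    have hb : (univ : Finset V) ≠ ⊥ := by
      rw [bot_eq_empty]; exact univ_nonempty.ne_empty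
    refine ⟨_, Finpartition.indiscrete hb, rfl, ?_⟩
    intro D hD
    rw [Finpartition.indiscrete_parts, mem_singleton] at hD
    rw [hD]; exact huniv
  have hgreat : IsGreatest (domaticOrders G) (domatic G) :=
    ⟨Nat.sSup_mem hne hbdd, fun m hm => le_csSup hbdd hm⟩
  obtain ⟨⟨P, hPc, hPD⟩, hub⟩ := hgreat
  have hpack : Pool.Agent.R798.Adom.Pack (IsDominating G) (domatic G) univ := by
    rw [← hPc]; exact Pool.Agent.R798.Adom.pack_of_fin P hPD
  have hd1 : 1 ≤ domatic G := by
    rw [← hPc]
    apply card_pos.2
    rw [nonempty_iff_ne_empty]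
    intro h
    have := P.sup_parts
    rw [h, sup_empty, bot_eq_empty] at this
    exact univ_nonempty.ne_empty this.symm
  -- the maximum packing gives an indivisible partition
  have hmax : ¬ Pool.Agent.R798.Adom.Pack (IsDominating G) (domatic G + 1) univ := by
    intro h
    -- take the largest packing number
    have key : ∀ k, Pool.Agent.R798.Adom.Pack (IsDominating G) (k + 1) univ →
        (∃ j, k ≤ j ∧ Pool.Agent.R798.Adom.Pack (IsDominating G) (j + 1) univ ∧
          ¬ Pool.Agent.R798.Adom.Pack (IsDominating G) (j + 2) univ) := by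
      intro k hk
      by_contra hcon
      push Not at hcon
      have hall : ∀ m, Pool.Agent.R798.Adom.Pack (IsDominating G) (k + m + 1) univ := by
        intro m
        induction m with
        | zero => exact hk
        | succ m ih => exact hcon (k + m) (by omega) ih
      have hlarge : ∀ m (S : Finset V), Pool.Agent.R798.Adom.Pack (IsDominating G) m S →
          m ≤ S.card := by
        intro m
        induction m with
        | zero => intro S _; exact Nat.zero_le _
        | succ m ih =>
          rintro S ⟨T, hT, hD, hP⟩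
          have h1 := ih _ hP
          rw [card_sdiff_of_subset hT] at h1
          have h2 : 0 < T.card := by
            apply card_pos.2
            rw [nonempty_iff_ne_empty]
            rintro rfl; exact not_empty G hD
          have h3 := card_le_card hT
          omega
      have := hlarge _ _ (hall (Fintype.card V))
      rw [card_univ] at this
      omega
    obtain ⟨j, hj, hj1, hj2⟩ := key _ h
    have hpar := Pool.Agent.R798.Adom.par_of_max (up G) hj1 hj2
    obtain ⟨Q, hQc, hQ⟩ := Pool.Agent.R798.Adom.fin_of_par (not_empty G) hpar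
    have := hub ⟨Q, hQc, fun T hT => (hQ T hT).1⟩
    omega
  have hparmax : Pool.Agent.R798.Adom.Par (IsDominating G) (domatic G) univ := by
    obtain ⟨j, hj⟩ : ∃ j, domatic G = j + 1 := ⟨domatic G - 1, by omega⟩
    rw [hj] at hpack hmax ⊢
    exact Pool.Agent.R798.Adom.par_of_max (up G) hpack hmax
  have conv : ∀ k, Pool.Agent.R798.Adom.Par (IsDominating G) k univ →
      ∃ P : Finpartition (univ : Finset V), P.parts.card = k ∧ ∀ D ∈ P.parts, Indivisible G D := by
    intro k hk
    obtain ⟨Q, hQc, hQ⟩ := Pool.Agent.R798.Adom.fin_of_par (not_empty G) hk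
    exact ⟨Q, hQc, fun T hT => (indivisible_iff G T).2 (hQ T hT)⟩
  have hne2 : (indivisibleOrders G).Nonempty := ⟨_, conv _ hparmax⟩
  have hleast : IsLeast (indivisibleOrders G) (adomatic G) :=
    ⟨Nat.sInf_mem hne2, fun m hm => Nat.sInf_le hm⟩
  refine ⟨hleast, ⟨⟨P, hPc, hPD⟩, hub⟩, ?_⟩
  intro k hk1 hk2
  obtain ⟨R, hRc, hR⟩ := hleast.1
  have hparR : Pool.Agent.R798.Adom.Par (IsDominating G) (adomatic G) univ := by
    rw [← hRc]
    exact Pool.Agent.R798.Adom.par_of_fin R (fun T hT => (indivisible_iff G T).1 (hR T hT))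
  have ha1 : 1 ≤ adomatic G := by
    rw [← hRc]
    apply card_pos.2
    rw [nonempty_iff_ne_empty]
    intro h
    have := R.sup_parts
    rw [h, sup_empty, bot_eq_empty] at this
    exact univ_nonempty.ne_empty this.symm
  obtain ⟨j, hj⟩ : ∃ j, adomatic G = j + 1 := ⟨adomatic G - 1, by omega⟩
  rw [hj] at hparR hk1
  exact conv k (Pool.Agent.R798.Adom.par_between (up G) (not_empty G) hparR hpack k hk1 hk2)

end Pool.Agent.Results.MP_a3f2aa_co.IndivisibleInterpolation
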